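import Mathlib

/-!
# The Galois groups of the archimedean completions
-/

set_option autoImplicit false

namespace Pool.Agent.NH4.BK

open NumberField

theorem gal_real {k : Type} [Field k] (φ : k ≃+* ℝ) :
    ∃ τ₀ : AlgebraicClosure k ≃ₐ[k] AlgebraicClosure k, τ₀ * τ₀ = 1 ∧
      ∀ τ : AlgebraicClosure k ≃ₐ[k] AlgebraicClosure k, τ = 1 ∨ τ = τ₀ := by
  let a1 : Algebra k ℝ := (φ : k →+* ℝ).toAlgebra
  let a2 : Algebra k ℂ := ((algebraMap ℝ ℂ).comp (φ : k →+* ℝ)).toAlgebra
  have h1 : IsScalarTower k ℝ ℂ := IsScalarTower.of_algebraMap_eq fun x => rfl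
  have h2 : Algebra.IsAlgebraic k ℝ := ⟨fun x => by
    have h3 : x = algebraMap k ℝ (φ.symm x) := (φ.apply_symm_apply x).symm
    rw [h3]
    exact isAlgebraic_algebraMap _⟩
  have h3 : Algebra.IsAlgebraic ℝ ℂ := Algebra.IsAlgebraic.of_finite ℝ ℂ
  have h4 : Algebra.IsAlgebraic k ℂ := Algebra.IsAlgebraic.trans k ℝ ℂ
  have h5 : IsAlgClosure k ℂ := ⟨inferInstance, h4⟩
  let e : AlgebraicClosure k ≃ₐ[k] ℂ := IsAlgClosure.equiv k (AlgebraicClosure k) ℂ
  have h6 : ∀ g : ℂ ≃ₐ[k] ℂ, (∀ z, g z = z) ∨ ∀ z, g z = (starRingEnd ℂ) z := by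
    intro g
    have h7 : ∀ r : ℝ, g (r : ℂ) = (r : ℂ) := by
      intro r
      have h8 : (r : ℂ) = algebraMap k ℂ (φ.symm r) := by
        show (r : ℂ) = ((φ (φ.symm r) : ℝ) : ℂ)
        rw [φ.apply_symm_apply]
      rw [h8]
      exact g.commutes _
    let G : ℂ →ₐ[ℝ] ℂ := { toRingHom := (g : ℂ →+* ℂ), commutes' := h7 }
    rcases Complex.real_algHom_eq_id_or_conj G with h | h
    · left
      intro z
      exact DFunLike.congr_fun h z
    · right
      intro z
      exact DFunLike.congr_fun h z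
  let cj : ℂ ≃ₐ[k] ℂ := AlgEquiv.ofRingEquiv (f := starRingAut) (fun x => by
    show (starRingEnd ℂ) ((φ x : ℝ) : ℂ) = _
    rw [Complex.conj_ofReal]
    rfl)
  have hcj : ∀ z, cj z = (starRingEnd ℂ) z := fun z => rfl
  refine ⟨(e.trans cj).trans e.symm, ?_, fun τ => ?_⟩
  · ext x
    show e.symm (cj (e (e.symm (cj (e x))))) = x
    rw [e.apply_symm_apply, hcj, hcj, Complex.conj_conj, e.symm_apply_apply]
  · rcases h6 ((e.symm.trans τ).trans e) with h | h
    · left
      ext x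
      have h7 := h (e x)
      have h8 : e (τ (e.symm (e x))) = e x := h7
      rw [e.symm_apply_apply] at h8
      exact e.injective h8
    · right
      ext x
      have h7 := h (e x)
      have h8 : e (τ (e.symm (e x))) = (starRingEnd ℂ) (e x) := h7
      rw [e.symm_apply_apply] at h8
      show τ x = e.symm (cj (e x))
      rw [hcj, ← h8, e.symm_apply_apply]

theorem gal_closed {k : Type} [Field k] (φ : k ≃+* ℂ)
    (τ : AlgebraicClosure k ≃ₐ[k] AlgebraicClosure k) : τ = 1 := by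
  have h1 : IsAlgClosed k := IsAlgClosed.of_ringEquiv ℂ k φ.symm
  have h2 : Function.Surjective (algebraMap k (AlgebraicClosure k)) :=
    IsAlgClosed.algebraMap_bijective_of_isIntegral.2
  ext x
  obtain ⟨y, rfl⟩ := h2 x
  rw [τ.commutes]
  rfl

/-- the absolute Galois group of an archimedean completion -/
theorem gal_arch {F : Type} [Field F] (v : InfinitePlace F) :
    ∃ τ₀ : AlgebraicClosure v.Completion ≃ₐ[v.Completion] AlgebraicClosure v.Completion,
      τ₀ * τ₀ = 1 ∧ ∀ τ, τ = 1 ∨ τ = τ₀ := by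
  rcases v.isReal_or_isComplex with h | h
  · exact gal_real (InfinitePlace.Completion.ringEquivRealOfIsReal h)
  · exact ⟨1, one_mul 1, fun τ => Or.inl
      (gal_closed (InfinitePlace.Completion.ringEquivComplexOfIsComplex h) τ)⟩

end Pool.Agent.NH4.BK
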