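import Mathlib
import Pool.Agent.TH841.NF.ShaN

/-!
# The Bloch-Kato Selmer group of `V_2(W) = T_2(W) ⊗ ℚ`

`W` is an elliptic curve over a number field `F`. The rational Tate module is
`V_2(W) = T_2(W) ⊗ ℚ = lim (W[2^∞] ← W[2^∞] ← …)` (the maps are the multiplication by two): its elements are the
sequences `(P_N)` of points of `2`-power order over the algebraic closure with `2 P_{N+1} = P_N`
(in `T_2(W)` if and only if `P_0 = 0`). The continuous cohomology classes are given by continuous cocycles. A
function `c` on the Galois group with values in `V_2(W)` is given by its components `c N`; it is a continuous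
cocycle if and only if all the components are cocycles and locally constant. The local condition at a finite
place `v` is that of Bloch and Kato: the class lies in `H¹_f(F_v, V_2(W))`, that is, in the image of the Kummer map
of `W(F_v) ⊗ ℚ_2`; this means that all the components become trivial in `H¹(F_v, W)`. There is no condition at the
infinite places.
-/

set_option autoImplicit false

namespace Pool.Agent.NH4.BK

open WeierstrassCurve

open Pool.Agent.TH841.SH.D (Pt act Gal Coch IsCoc LocTriv coc_zero coc_add coc_neg loc_zero loc_add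
  loc_neg)

section

variable {F : Type} [Field F]

/-- the sequence `P` of points over the algebraic closure is an element of `V_2(W)` -/
def IsV2 (W : WeierstrassCurve F) (P : ℕ → Pt W (AlgebraicClosure F)) : Prop :=
  (∀ N, ∃ m : ℕ, (2 ^ m : ℕ) • P N = 0) ∧ ∀ N, P (N + 1) + P (N + 1) = P N

theorem isV2_zero (W : WeierstrassCurve F) : IsV2 W 0 :=
  ⟨fun _ => ⟨0, smul_zero _⟩, fun _ => add_zero _⟩

theorem isV2_add {W : WeierstrassCurve F} {P Q : ℕ → Pt W (AlgebraicClosure F)}
    (hP : IsV2 W P) (hQ : IsV2 W Q) : IsV2 W (P + Q) := by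
  obtain ⟨h1, h2⟩ := hP
  obtain ⟨h3, h4⟩ := hQ
  refine ⟨fun N => ?_, fun N => ?_⟩
  · obtain ⟨m, hm⟩ := h1 N
    obtain ⟨l, hl⟩ := h3 N
    refine ⟨m + l, ?_⟩
    show (2 ^ (m + l) : ℕ) • (P N + Q N) = 0
    rw [smul_add, pow_add, mul_comm, mul_smul, hm, smul_zero, mul_comm, mul_smul, hl, smul_zero,
      add_zero]
  · show (P (N + 1) + Q (N + 1)) + (P (N + 1) + Q (N + 1)) = P N + Q N
    rw [add_add_add_comm, h2, h4]

theorem isV2_neg {W : WeierstrassCurve F} {P : ℕ → Pt W (AlgebraicClosure F)}
    (hP : IsV2 W P) : IsV2 W (-P) := by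
  obtain ⟨h1, h2⟩ := hP
  refine ⟨fun N => ?_, fun N => ?_⟩
  · obtain ⟨m, hm⟩ := h1 N
    refine ⟨m, ?_⟩
    show (2 ^ m : ℕ) • (-P N) = 0
    rw [smul_neg, hm, neg_zero]
  · show (-P (N + 1)) + (-P (N + 1)) = -P N
    rw [← neg_add, h2]

/-- the functions on the Galois group with values in the sequences of points, by their components -/
def CochV (W : WeierstrassCurve F) : Type := ℕ → Coch W

/-- the group of these functions -/
noncomputable instance CochV.group (W : WeierstrassCurve F) : AddCommGroup (CochV W) :=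
  @Pi.addCommGroup ℕ (fun _ => Coch W) (fun _ => Coch.group W)

/-- `c` is a continuous cocycle with values in `V_2(W)` -/
def IsCocV (W : WeierstrassCurve F) (c : CochV W) : Prop :=
  (∀ σ : Gal F, IsV2 W fun N => c N σ) ∧ ∀ N, IsCoc W (c N)

/-- `c` is the coboundary `σ ↦ σ P - P` of some `P ∈ V_2(W)` -/
def IsCobV (W : WeierstrassCurve F) (c : CochV W) : Prop :=
  ∃ P : ℕ → Pt W (AlgebraicClosure F), IsV2 W P ∧
    ∀ (N : ℕ) (σ : Gal F), c N σ = act W σ.toAlgHom (P N) - P N

theorem isCobV_zero (W : WeierstrassCurve F) : IsCobV W 0 := ⟨0, isV2_zero W, fun N σ => by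
  show (0 : Pt W (AlgebraicClosure F)) = act W σ.toAlgHom 0 - 0
  rw [map_zero, sub_zero]⟩

theorem isCobV_add {W : WeierstrassCurve F} {c c' : CochV W} (h : IsCobV W c) (h' : IsCobV W c') :
    IsCobV W (c + c') := by
  obtain ⟨P, hP, hP'⟩ := h
  obtain ⟨Q, hQ, hQ'⟩ := h'
  refine ⟨P + Q, isV2_add hP hQ, fun N σ => ?_⟩
  show c N σ + c' N σ = act W σ.toAlgHom (P N + Q N) - (P N + Q N)
  rw [hP', hQ', map_add]
  abel

theorem isCobV_neg {W : WeierstrassCurve F} {c : CochV W} (h : IsCobV W c) : IsCobV W (-c) := by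
  obtain ⟨P, hP, hP'⟩ := h
  refine ⟨-P, isV2_neg hP, fun N σ => ?_⟩
  show -c N σ = act W σ.toAlgHom (-P N) - -P N
  rw [hP', map_neg]
  abel

/-- the group of the coboundaries -/
def cobV (W : WeierstrassCurve F) : AddSubgroup (CochV W) where
  carrier := {c | IsCobV W c}
  zero_mem' := isCobV_zero W
  add_mem' := isCobV_add
  neg_mem' := isCobV_neg

end

variable {F : Type} [Field F] [NumberField F]

/-- the condition of Bloch and Kato at the finite places: the restriction to the absolute Galois group of `F_v`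
lies in the image of the Kummer map of `W(F_v) ⊗ ℚ_2`, that is, all the components are coboundaries of
points of `W` over the algebraic closure of `F_v` -/
def IsFinite (W : WeierstrassCurve F) (c : CochV W) : Prop :=
  ∀ (v : IsDedekindDomain.HeightOneSpectrum (NumberField.RingOfIntegers F)) (N : ℕ),
    LocTriv W (v.adicCompletion F) (c N)

/-- `c` is a continuous cocycle with values in `V_2(W)` that satisfies the local conditions -/
def IsSelV (W : WeierstrassCurve F) (c : CochV W) : Prop := IsCocV W c ∧ IsFinite W c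

theorem isSelV_zero (W : WeierstrassCurve F) : IsSelV W 0 :=
  ⟨⟨fun _ => isV2_zero W, fun _ => coc_zero W⟩, fun _ _ => loc_zero W _⟩

theorem isSelV_add {W : WeierstrassCurve F} {c c' : CochV W} (h : IsSelV W c) (h' : IsSelV W c') :
    IsSelV W (c + c') :=
  ⟨⟨fun σ => isV2_add (h.1.1 σ) (h'.1.1 σ), fun N => coc_add (h.1.2 N) (h'.1.2 N)⟩,
    fun v N => loc_add (h.2 v N) (h'.2 v N)⟩

theorem isSelV_neg {W : WeierstrassCurve F} {c : CochV W} (h : IsSelV W c) : IsSelV W (-c) :=
  ⟨⟨fun σ => isV2_neg (h.1.1 σ), fun N => coc_neg (h.1.2 N)⟩, fun v N => loc_neg (h.2 v N)⟩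

/-- the continuous cocycles that satisfy the local conditions -/
def selV (W : WeierstrassCurve F) : AddSubgroup (CochV W) where
  carrier := {c | IsSelV W c}
  zero_mem' := isSelV_zero W
  add_mem' := isSelV_add
  neg_mem' := isSelV_neg

/-- the Bloch-Kato Selmer group `H¹_f(F, V_2(W))` -/
def H1f (W : WeierstrassCurve F) : Type := selV W ⧸ (cobV W).addSubgroupOf (selV W)

/-- the group law -/
noncomputable instance H1f.group (W : WeierstrassCurve F) : AddCommGroup (H1f W) :=
  @QuotientAddGroup.Quotient.addCommGroup (selV W) _ ((cobV W).addSubgroupOf (selV W))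

end Pool.Agent.NH4.BK
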