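import Pool.Agent.NH4.BK.Main
import Pool.Agent.NH4.XH.Fin

/-!
# The Bloch-Kato Selmer groups of the twists of `X_0(15)` over multiquadratic fields
-/

set_option autoImplicit false

namespace Pool.Agent.NH4.BK

open WeierstrassCurve NumberField

open Pool.Agent.TH841.NF (EF Gen sc_EF tw_Sh thS thS_ker Qb tw)
open Pool.Agent.W307.RT (Sh)
open Pool.Agent.NH4.XH (S_HOUT Gs gT UpB PG rank_of)
open Pool.Agent.NH4.PF (Ind)

/-- the `2`-primary part of `Ш` over the multiquadratic field is killed by the degree -/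
theorem sha_kill {F : Type} [Field F] [NumberField F] {s : ℕ} {d : Fin s → ℤ}
    (hF : Gen F d) (hd : ∀ i, d i ≠ 0) {A B : ℤ}
    (h : ∀ (T : Finset (Fin s)) (y : Pool.Agent.TH841.SH.D.Sha
      (Sh ((∏ i ∈ T, d i) ^ 2 * A) ((∏ i ∈ T, d i) ^ 3 * B))), y + y = 0 → y = 0)
    (k : ℕ) (x : Pool.Agent.TH841.NF.D.Sha (EF A B F)) (hk : (2 ^ k : ℕ) • x = 0) :
    (2 ^ s : ℕ) • x = 0 := by
  obtain ⟨r, hx, hgen⟩ := hF
  have hdq : ∀ i, (d i : ℚ) ≠ 0 := fun i => by exact_mod_cast hd i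
  have hxq : ∀ i, r i ^ 2 = algebraMap ℚ F (d i : ℚ) := fun i => by
    rw [hx i, map_intCast]
  have he : Nonempty (AlgebraicClosure F ≃+* Qb) := by
    have h1 : Algebra.IsAlgebraic ℚ (AlgebraicClosure F) := Algebra.IsAlgebraic.trans ℚ F _
    have h2 : IsAlgClosure ℚ (AlgebraicClosure F) := ⟨inferInstance, h1⟩
    exact ⟨(IsAlgClosure.equiv ℚ (AlgebraicClosure F) (AlgebraicClosure ℚ)).toRingEquiv⟩
  obtain ⟨e⟩ := he
  refine thS_ker (sc_EF A B F) rfl rfl e hxq hdq hgen x fun T => ?_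
  have h1 : ∀ y : Pool.Agent.TH841.SH.D.Sha (tw (∏ i ∈ T, (d i : ℚ)) (Sh A B)),
      y + y = 0 → y = 0 := by
    rw [tw_Sh]
    exact h T
  have h2 : ∀ (k : ℕ) (y : Pool.Agent.TH841.SH.D.Sha (tw (∏ i ∈ T, (d i : ℚ)) (Sh A B))),
      (2 ^ k : ℕ) • y = 0 → y = 0 := by
    intro k
    induction k with
    | zero =>
      intro y hy
      rw [pow_zero, one_smul] at hy
      exact hy
    | succ k ih =>
      intro y hy
      refine h1 y (ih _ ?_)
      rw [← two_nsmul, smul_smul, ← pow_succ]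
      exact hy
  refine h2 k _ ?_
  rw [← map_nsmul, hk, map_zero]

/-- **the Bloch-Kato Selmer group over the multiquadratic field is zero** -/
theorem mq_h1f (h : S_HOUT) {n : ℕ} {M : ℤ} {d : Fin n → ℤ}
    (hP : PG (fun _ => Gs) (gT d) M) (hind : Ind d) (K : Type)
    [Field K] [NumberField K] (x : Fin n → K) (hx : ∀ i, x i ^ 2 = (d i : K))
    (hK : IntermediateField.adjoin ℚ (Set.range x) = ⊤) :
    (∀ (k : ℕ) (y : Pool.Agent.TH841.NF.D.Sha
      (EF (-12987 * M ^ 2) (-263466 * M ^ 3) K)), (2 ^ k : ℕ) • y = 0 → (2 ^ n : ℕ) • y = 0) ∧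
    ∀ y : H1f (EF (-12987 * M ^ 2) (-263466 * M ^ 3) K), y = 0 := by
  have hd : ∀ i, d i ≠ 0 := fun i h0 => hind {i} (Finset.singleton_nonempty i) (by
    rw [Finset.prod_singleton, h0]
    exact ⟨0, by ring⟩)
  have h1 := sha_kill (F := K) (A := -12987 * M ^ 2) (B := -263466 * M ^ 3) ⟨x, hx, hK⟩ hd
    (fun T => by
      have h2 := (rank_of h (hP T)).2.2
      have e1 : (∏ i ∈ T, d i) ^ 2 * (-12987 * M ^ 2) = -12987 * (M * ∏ i ∈ T, d i) ^ 2 := by ring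
      have e2 : (∏ i ∈ T, d i) ^ 3 * (-263466 * M ^ 3) = -263466 * (M * ∏ i ∈ T, d i) ^ 3 := by ring
      rw [e1, e2]
      exact h2)
  refine ⟨h1, h1f_zero ?_ h1⟩
  exact (XH.field_zero h hP hind K x hx hK).2

end Pool.Agent.NH4.BK
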