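import Pool.Agent.NH4.BK.Defs
import Pool.Agent.NH4.BK.Arch
import Pool.Agent.Y17.X.SelInf
import Pool.Agent.TH841.NF.One

/-!
# The Bloch-Kato Selmer group is zero if there are finitely many points and the divisible part of `Ш` is zero
-/

set_option autoImplicit false

namespace Pool.Agent.NH4.BK

open WeierstrassCurve NumberField CategoryTheory

open Pool.Agent.TH841.SH.D (Pt act Gal Coch IsCoc IsCob LocTriv cob)
open Pool.Agent.TH841.NF (EF Gen sc_EF tw_Sh thS thS_ker Qb tw)
open Pool.Agent.TH841.NF.D (Sha shaCoc IsShaCoc)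
open Pool.Agent.Y17.X.SI (Fix two_prim)

section arch

variable {F : Type} [Field F] {W : WeierstrassCurve F}

theorem act_some' {L L' : Type} [Field L] [Field L'] [Algebra F L] [Algebra F L'] (φ : L →ₐ[F] L')
    {x y : L} (h : (W.baseChange L).toAffine.Nonsingular x y) :
    ∃ h', act W φ (.some x y h) = .some (φ x) (φ y) h' := ⟨_, rfl⟩

theorem act_cmp {L L' L'' : Type} [Field L] [Field L'] [Field L''] [Algebra F L] [Algebra F L']
    [Algebra F L''] (φ : L →ₐ[F] L') (ψ : L' →ₐ[F] L'') (P : Pt W L) :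
    act W ψ (act W φ P) = act W (ψ.comp φ) P := by
  rcases P with _ | ⟨x, y, h⟩
  · rfl
  · rfl

theorem act_congr {L L' : Type} [Field L] [Field L'] [Algebra F L] [Algebra F L'] {φ ψ : L →ₐ[F] L'}
    (h : ∀ x, φ x = ψ x) (P : Pt W L) : act W φ P = act W ψ P := by
  have : φ = ψ := AlgHom.ext h
  rw [this]

/-- the value of a cocycle at `1` -/
theorem coc_one {f : Coch W} (hf : IsCoc W f) : f 1 = 0 := by
  have h := hf.2 1 1
  rw [mul_one] at h
  have h1 : act W (1 : Gal F).toAlgHom (f 1) = f 1 := by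
    rcases f 1 with _ | ⟨x, y, h⟩
    · rfl
    · rfl
  rw [h1] at h
  exact left_eq_add.1 h

/-- the condition at the infinite places is automatic -/
theorem loc_inf {c : CochV W} (hc : IsCocV W c) (N : ℕ) (v : InfinitePlace F) :
    LocTriv W v.Completion (c N) := by
  have hcoc : ∀ N, IsCoc W (c N) := hc.2
  have h2 : ∀ N σ, c N σ = c (N + 1) σ + c (N + 1) σ := fun N σ => ((hc.1 σ).2 N).symm
  intro ι
  obtain ⟨τ₀, hτ, hall⟩ := gal_arch v
  -- the restriction of `τ₀`
  by_cases hex : ∃ σ₀ : Gal F, ∀ x, τ₀ (ι x) = ι (σ₀ x)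
  · obtain ⟨σ₀, hσ⟩ := hex
    have hσσ : σ₀ * σ₀ = 1 := by
      ext x
      apply (ι : AlgebraicClosure F →+* AlgebraicClosure v.Completion).injective
      show ι (σ₀ (σ₀ x)) = ι x
      rw [← hσ, ← hσ]
      exact DFunLike.congr_fun hτ (ι x)
    obtain ⟨x, hx⟩ : ∃ x, x = c (N + 1) σ₀ := ⟨_, rfl⟩
    have hneg : act W σ₀.toAlgHom x = -x := by
      have h3 := (hcoc (N + 1)).2 σ₀ σ₀
      rw [hσσ, coc_one (hcoc (N + 1)), ← hx] at h3
      exact (neg_eq_of_add_eq_zero_right h3.symm).symm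
    refine ⟨-act W ι x, fun τ σ hcomp => ?_⟩
    rcases hall τ with rfl | rfl
    · have h4 : σ = 1 := by
        ext y
        apply (ι : AlgebraicClosure F →+* AlgebraicClosure v.Completion).injective
        exact (hcomp y).symm
      rw [h4, coc_one (hcoc N), map_zero]
      have h5 : act W ((1 : Gal v.Completion).toAlgHom.restrictScalars F) (-act W ι x) =
          -act W ι x := by
        rcases -act W ι x with _ | ⟨a, b, h⟩
        · rfl
        · rfl
      rw [h5, sub_self]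
    · have h4 : σ = σ₀ := by
        ext y
        apply (ι : AlgebraicClosure F →+* AlgebraicClosure v.Completion).injective
        show ι (σ y) = ι (σ₀ y)
        rw [← hcomp, ← hσ]
      have h5 : act W (τ.toAlgHom.restrictScalars F) (act W ι x) = act W ι (act W σ₀.toAlgHom x) := by
        rw [act_cmp, act_cmp]
        exact act_congr (fun y => hσ y) x
      rw [h4, h2 N σ₀, ← hx, map_neg, h5, hneg, map_neg, neg_neg, sub_neg_eq_add, map_add]
  · refine ⟨0, fun τ σ hcomp => ?_⟩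
    rcases hall τ with rfl | rfl
    · have h4 : σ = 1 := by
        ext y
        apply (ι : AlgebraicClosure F →+* AlgebraicClosure v.Completion).injective
        exact (hcomp y).symm
      rw [h4, coc_one (hcoc N), map_zero, map_zero, sub_zero]
    · exact absurd ⟨σ, hcomp⟩ hex

/-- the fixed points are finite in number -/
theorem fix_finite [CharZero F] (h : Finite W.toAffine.Point) :
    Finite (Fix fun σ : Gal F => act W σ.toAlgHom) := by
  suffices H : ∀ W' : WeierstrassCurve F, W' = W.baseChange F →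
      Finite W'.toAffine.Point → Finite (Fix fun σ : Gal F => act W σ.toAlgHom) by
    refine H W ?_ h
    apply WeierstrassCurve.ext <;> simp [WeierstrassCurve.baseChange]
  rintro W' rfl hfin
  have hsurj : ∀ P : Pt W (AlgebraicClosure F), (∀ σ : Gal F, act W σ.toAlgHom P = P) →
      ∃ q : (W.baseChange F).toAffine.Point,
        act W (Algebra.ofId F (AlgebraicClosure F)) q = P := by
    intro P hP
    rcases P with _ | ⟨X, Y, h⟩
    · exact ⟨0, rfl⟩
    · have hfix : ∀ σ : Gal F, σ X = X ∧ σ Y = Y := by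
        intro σ
        have h1 := hP σ
        obtain ⟨h', h2⟩ := act_some' (W := W) σ.toAlgHom h
        rw [h2] at h1
        injection h1 with h3 h4
        exact ⟨h3, h4⟩
      obtain ⟨x, hx⟩ := Pool.Agent.TH841.SH.fix_mem (K := F) X (fun τ => (hfix τ).1)
      obtain ⟨y, hy⟩ := Pool.Agent.TH841.SH.fix_mem (K := F) Y (fun τ => (hfix τ).2)
      subst hx hy
      have hn : (W.baseChange F).toAffine.Nonsingular x y :=
        (Affine.baseChange_nonsingular W (f := Algebra.ofId F (AlgebraicClosure F))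
          (Algebra.ofId F (AlgebraicClosure F)).injective x y).mp h
      exact ⟨.some x y hn, rfl⟩
  refine Finite.of_surjective (α := {q : (W.baseChange F).toAffine.Point // ∀ σ : Gal F,
    act W σ.toAlgHom (act W (Algebra.ofId F (AlgebraicClosure F)) q) =
      act W (Algebra.ofId F (AlgebraicClosure F)) q})
    (fun q => ⟨act W (Algebra.ofId F (AlgebraicClosure F)) q.1, q.2⟩) (fun P => ?_)
  obtain ⟨q, hq⟩ := hsurj P.1 P.2
  refine ⟨⟨q, ?_⟩, Subtype.ext hq⟩
  rw [hq]
  exact P.2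

end arch

variable {F : Type} [Field F] [NumberField F]

/-- **The Bloch-Kato Selmer group is zero**, if there are finitely many points and the `2`-primary part of `Ш` has
bounded exponent. -/
theorem h1f_zero {W : WeierstrassCurve F} (hfin : Finite W.toAffine.Point) {n : ℕ}
    (hS : ∀ (k : ℕ) (x : Sha W), (2 ^ k : ℕ) • x = 0 → (2 ^ n : ℕ) • x = 0) :
    ∀ x : H1f W, x = 0 := by
  have hFix := fix_finite hfin
  intro x
  obtain ⟨⟨c, hc⟩, rfl⟩ := QuotientAddGroup.mk_surjective x
  refine (QuotientAddGroup.eq_zero_iff _).2 ?_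
  rw [AddSubgroup.mem_addSubgroupOf]
  obtain ⟨hc1, hc2⟩ : IsCocV W c ∧ IsFinite W c := hc
  have hcoc : ∀ N, IsCoc W (c N) := hc1.2
  have hsha : ∀ N, IsShaCoc W (c N) := fun N =>
    ⟨hcoc N, fun v => hc2 v N, fun v => loc_inf hc1 N v⟩
  have hstep : ∀ k N σ, (2 ^ k : ℕ) • c (N + k) σ = c N σ := by
    intro k
    induction k with
    | zero =>
      intro N σ
      rw [pow_zero, one_smul]
      rfl
    | succ k ih =>
      intro N σ
      have h' : (2 : ℕ) • c (N + (k + 1)) σ = c (N + k) σ := by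
        rw [two_nsmul]
        exact (hc1.1 σ).2 (N + k)
      rw [pow_succ, mul_smul, h', ih]
  have hK : ∀ N, ∃ K : ℕ, ∀ σ, (2 ^ K : ℕ) • c N σ = 0 := by
    intro N
    have hrange : (Set.range (c N)).Finite := (hcoc N).1.range_finite
    have hm : ∀ σ, ∃ m : ℕ, (2 ^ m : ℕ) • c N σ = 0 := fun σ => (hc1.1 σ).1 N
    choose m hm using hm
    have hex : ∀ y ∈ Set.range (c N), ∃ k : ℕ, (2 ^ k : ℕ) • y = 0 := by
      rintro y ⟨σ, rfl⟩
      exact ⟨m σ, hm σ⟩
    choose! k hk using hex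
    obtain ⟨K, hK⟩ := (hrange.image k).bddAbove
    refine ⟨K, fun σ => ?_⟩
    have h1 := hk _ (Set.mem_range_self σ)
    have h2 : k (c N σ) ≤ K := hK ⟨_, Set.mem_range_self σ, rfl⟩
    rw [← Nat.sub_add_cancel h2, pow_add, mul_smul, h1, smul_zero]
  -- the components are coboundaries
  have hcob : ∀ N, ∃ P, (∃ m : ℕ, (2 ^ m : ℕ) • P = 0) ∧
      ∀ σ : Gal F, c N σ = act W σ.toAlgHom P - P := by
    intro N
    obtain ⟨K, hKN⟩ := hK (N + n)
    obtain ⟨K0, hK0⟩ := hK N
    obtain ⟨f, hf⟩ : ∃ f : shaCoc W, f.1 = c (N + n) := ⟨⟨c (N + n), hsha _⟩, rfl⟩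
    have h0 : (2 ^ K : ℕ) • f = 0 := by
      apply Subtype.ext
      rw [AddSubgroup.coe_nsmul, hf]
      funext σ
      exact hKN σ
    have h1 : (2 ^ K : ℕ) • (QuotientAddGroup.mk f : Sha W) = 0 := by
      rw [← QuotientAddGroup.mk_nsmul, h0]
      rfl
    have h2 : (QuotientAddGroup.mk ((2 ^ n : ℕ) • f) : Sha W) = 0 := hS K _ h1
    have h3 := (QuotientAddGroup.eq_zero_iff _).1 h2
    rw [AddSubgroup.mem_addSubgroupOf] at h3
    obtain ⟨P, hP⟩ := h3
    refine two_prim (fun σ : Gal F => act W σ.toAlgHom) (c N) K0 hK0 ⟨P, fun σ => ?_⟩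
    have h4 := hP σ
    rw [AddSubgroup.coe_nsmul, hf] at h4
    rw [← hstep n N σ]
    exact h4
  -- the compatible choice
  let S : ℕ → Type := fun N => {P : Pt W (AlgebraicClosure F) // (∃ m : ℕ, (2 ^ m : ℕ) • P = 0) ∧
      ∀ σ : Gal F, c N σ = act W σ.toAlgHom P - P}
  have hSne : ∀ N, Nonempty (S N) := fun N => by
    obtain ⟨P, hP⟩ := hcob N
    exact ⟨⟨P, hP⟩⟩
  have hSfin : ∀ N, Finite (S N) := by
    intro N
    obtain ⟨P₀⟩ := hSne N
    refine Finite.of_injective (β := Fix fun σ : Gal F => act W σ.toAlgHom)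
      (fun P => ⟨P.1 - P₀.1, fun σ => ?_⟩) fun P Q h => ?_
    · have h1 := P.2.2 σ
      have h2 := P₀.2.2 σ
      rw [map_sub]
      rw [h1] at h2
      exact (sub_eq_sub_iff_sub_eq_sub.1 h2)
    · have h1 : P.1 - P₀.1 = Q.1 - P₀.1 := congrArg Subtype.val h
      exact Subtype.ext (sub_left_injective h1)
  let fS : ∀ N, S (N + 1) → S N := fun N P => ⟨P.1 + P.1, by
    obtain ⟨m, hm⟩ := P.2.1
    exact ⟨m, by rw [smul_add, hm, add_zero]⟩, fun σ => by
    have h1 : c (N + 1) σ + c (N + 1) σ = c N σ := (hc1.1 σ).2 N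
    rw [← h1, P.2.2 σ, map_add]
    abel⟩
  obtain ⟨s, hs⟩ : ∃ s : ∀ N, S N, ∀ N, fS N (s (N + 1)) = s N := by
    let G : ℕᵒᵖ ⥤ Type := Functor.ofOpSequence (X := S) fun N => TypeCat.ofHom (fS N)
    have g1 : ∀ j : ℕᵒᵖ, Finite (G.obj j) := fun j => hSfin j.unop
    have g2 : ∀ j : ℕᵒᵖ, Nonempty (G.obj j) := fun j => hSne j.unop
    obtain ⟨u, hu⟩ := nonempty_sections_of_finite_inverse_system G
    refine ⟨fun N => u (Opposite.op N), fun N => ?_⟩
    have h1 := hu (homOfLE (Nat.le_add_right N 1)).op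
    have h2 : G.map (homOfLE (Nat.le_add_right N 1)).op = TypeCat.ofHom (fS N) :=
      Functor.ofOpSequence_map_homOfLE_succ (X := S) (fun N => TypeCat.ofHom (fS N)) N
    rw [h2] at h1
    exact h1
  exact ⟨fun N => (s N).1, ⟨fun N => (s N).2.1, fun N => congrArg Subtype.val (hs N)⟩,
    fun N σ => (s N).2.2 σ⟩

end Pool.Agent.NH4.BK
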